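import Pool.Agent.R825.MK.Final2
import Pool.Agent.R825.MK.Point
import Pool.Agent.R62.MKD2

/-!
# Hausdorff dimension of power series of typical compact sets

For a compact set `K ⊆ [0, 1]` and a power series `f = ∑ a_i x^i` the set `f(K)` is the Minkowski
series `∑ a_i K^(i)`, where `K^(i)` is the set of all products of `i` elements of `K`
(`MinkPow K i`); `IsSeries a K L` says that the partial Minkowski sums converge to `L` in the
Hausdorff metric.

Main result: for every `0 < d < 1` there is a power series, absolutely convergent on `[0, 1]`, such
that `f(K)` has Hausdorff dimension `d` for the typical compact set `K`.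

Idea.  Upper bound: the typical `K` is at infinitely many scales extremely close to a finite set of
powers of one number `ρ`, so that `K^(i)` looks like at most `r i + 1` points; the coefficients
`a_i ≈ 2 ^ (- i log₂ i / d)` then give the upper bound `d`.  Lower bound: `f(K)` contains the sums
`∑ a_i y^i (x/y)^(k_i)`, `k_i ≤ i`, for `x < y` in `K`.  The levels `i` of a group of `2 ^ r`
consecutive levels can be placed into `2 ^ r` slots in almost arbitrary order.  The coefficients
contain a small quadratic perturbation, so that for all `x, y` few pairs of levels of a group can be
confused, and so different orders give separated sums.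

(Second part: the pointwise image of the typical compact set under a power series always has
dimension `0`, because the typical compact set does not contain the point `1`.)

Formal proofs of the parts: helper258 (upper bound), helper793 (counting of the confused pairs),
helper62 (asymptotic estimates), helper825; the framework follows helper21 and helper270 (the case of
the exponential series).
-/

set_option autoImplicit false

open TopologicalSpace Filter Topology Set

namespace Pool.Agent.Results.MP_71365f_an.TypicalDimension

open Pool.Agent.R825.MK

/-- **Theorem.** For every `0 < d < 1` there is an absolutely summable sequence `a` such that for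
every nonempty compact `K ⊆ [0, 1]` the Minkowski series `f(K) = ∑ a_i K^(i)` converges in the
Hausdorff metric, and for the typical `K` its sum has Hausdorff dimension `d`.  On the other hand the
pointwise image of the typical `K` under an absolutely convergent power series always has Hausdorff
dimension `0`. -/
theorem result :
    (∀ d : ℝ, 0 < d → d < 1 → ∃ a : ℕ → ℝ, Summable (fun i => |a i|) ∧
      (∀ K : KK01, ∃! L, IsSeries a K L) ∧
      ∀ᶠ K in residual KK01, ∀ L, IsSeries a K L → dimH (L : Set ℝ) = ENNReal.ofReal d) ∧
    (∀ a : ℕ → ℝ, Summable (fun i => |a i|) → ∀ᶠ K : KK01 in residual KK01,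
      dimH ((fun x : ℝ => ∑' i, a i * x ^ i) '' (Subtype.val '' (K : Set (Icc (0 : ℝ) 1)))) = 0) := by
  refine ⟨?_, pointwise_zero⟩
  intro d hd0 hd1
  have hκ : 1 ≤ 1 / d := by rw [le_div_iff₀ hd0]; linarith
  obtain ⟨hs, hm⟩ := main Pool.Agent.R62.MKD2.D2_ok (1 / d) hκ
  refine ⟨aa (1 / d), ?_, ?_, ?_⟩
  · have h : (fun i => |aa (1 / d) i|) = aa (1 / d) := by
      funext i
      exact abs_of_pos (aa_pos _ i)
    rw [h]
    exact hs
  · intro K
    obtain ⟨L, hL⟩ := exists_isSeries (aa (1 / d)) (aa_pos _) hs K
    exact ⟨L, hL, fun L' hL' => tendsto_nhds_unique hL' hL⟩
  · filter_upwards [hm] with K hK L hL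
    rw [(hK L hL).1, one_div_one_div]

end Pool.Agent.Results.MP_71365f_an.TypicalDimension
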